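import Pool.Agent.Y587.SA.Gen

set_option autoImplicit false

/-!
# Proper `κ`-complete algebras that contain a selector of every partition

Let `κ` be an uncountable regular cardinal, `X` any set with at least `κ` elements and `𝔅` any
`κ`-complete algebra of fewer than `2 ^ #X` subsets of `X`.  Well-order `X` so that every element has
fewer than `#X` predecessors; call a set small if some map with fibres of size less than `κ` is
regressive on it up to fewer than `κ` points; let `𝔑` be the family of all sets that agree with a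
member of `𝔅` up to a small set.  If `M` is the set of the least elements of pairwise disjoint sets,
then a set that avoids `M` and meets each of them in fewer than `κ` points is small.  Ladder
functions of the points of countable cofinality of the initial segments of regular order type give a
partition of `X` into `#X` sets that are not small, so `𝔑` is far from the full power set.
For `κ = ℵ₁` and an interval `X` this is a strong negative answer to the question.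
-/

namespace Pool.Agent.Results.MP_04ddd8_lc.SelectorAlgebras

open Set Cardinal Pool.Agent.Y587.SA

/-- `𝔑` is a `κ`-complete algebra of subsets of `X` that contains all sets with fewer than `κ`
elements and is rich in selectors, and it is far from the full power set of `X`. -/
structure SelectorAlgebra {X : Type} (κ c : Cardinal.{0}) (𝔑 : Set (Set X)) : Prop where
  /-- closed under complements -/
  compl : ∀ A ∈ 𝔑, Aᶜ ∈ 𝔑
  /-- closed under unions of fewer than `κ` members -/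
  iUnion : ∀ (ι : Type) (A : ι → Set X), #ι < κ → (∀ i, A i ∈ 𝔑) → ⋃ i, A i ∈ 𝔑
  /-- contains the sets with fewer than `κ` elements -/
  small : ∀ T : Set X, #T < κ → T ∈ 𝔑
  /-- every family `P` of pairwise disjoint sets with at least two elements, in particular every
  partition of `X` into such sets, has a selector all of whose subsets lie in `𝔑` -/
  selector : ∀ P : Set (Set X), P.PairwiseDisjoint id → (∀ p ∈ P, p.Nontrivial) →
    ∃ S ⊆ ⋃₀ P, (∀ p ∈ P, ∃! x, x ∈ S ∩ p) ∧ ∀ T ⊆ S, T ∈ 𝔑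
  /-- every family `P` of pairwise disjoint nonempty sets has a selector `M` such that each subset
  of the union of `P` that avoids `M` and meets every member of `P` in fewer than `κ` points lies in
  `𝔑` -/
  transversal : ∀ P : Set (Set X), P.PairwiseDisjoint id → (∀ p ∈ P, p.Nonempty) →
    ∃ M ⊆ ⋃₀ P, (∀ p ∈ P, ∃! x, x ∈ M ∩ p) ∧
      ∀ T ⊆ ⋃₀ P \ M, (∀ p ∈ P, #(T ∩ p : Set X) < κ) → T ∈ 𝔑
  /-- there are `#X` pairwise disjoint sets such that at most `c` of the unions of them lie in `𝔑` -/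
  sparse : ∃ A : X → Set X, (∀ x y, x ≠ y → Disjoint (A x) (A y)) ∧
    #{Z : Set X | ⋃ x ∈ Z, A x ∈ 𝔑} ≤ c
  /-- there are `2 ^ #X` subsets of `X` with pairwise symmetric differences outside `𝔑` -/
  many : ∃ 𝓐 : Set (Set X), #𝓐 = 2 ^ #X ∧ ∀ U ∈ 𝓐, ∀ V ∈ 𝓐, U ≠ V → symmDiff U V ∉ 𝔑

theorem general (κ : Cardinal.{0}) (hκ : κ.IsRegular) (hκ0 : ℵ₀ < κ) (X : Type) (hX : κ ≤ #X)
    (𝔅 : Set (Set X)) (h𝔅 : IsAlg κ 𝔅) (c : Cardinal.{0}) (hc : c < 2 ^ #X) (h𝔅c : #𝔅 ≤ c) :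
    ∃ 𝔑 : Set (Set X), 𝔅 ⊆ 𝔑 ∧ SelectorAlgebra κ c 𝔑 := by
  obtain ⟨𝔑, h1, h2, h3, h4, A, hA, hcA⟩ := main κ hκ hκ0 X hX 𝔅 h𝔅
  have hinf : Infinite X := infinite_iff.2 (hκ0.le.trans hX)
  refine ⟨𝔑, h1, h2.compl, h2.iUnion, h3, ?_, h4, ⟨A, hA, hcA.trans h𝔅c⟩,
    many hκ0.le h2 hc hA (hcA.trans h𝔅c)⟩
  intro P hP hP2
  obtain ⟨M, -, hM, hT⟩ := h4 P hP fun p hp => (hP2 p hp).nonempty
  have hex : ∀ p : P, ∃ x ∈ p.1, x ∉ M := by
    intro p
    obtain ⟨x, hx, y, hy, hxy⟩ := hP2 p.1 p.2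
    by_cases hxM : x ∈ M
    · refine ⟨y, hy, fun hyM => hxy ?_⟩
      obtain ⟨z, -, hz⟩ := hM p.1 p.2
      exact (hz x ⟨hxM, hx⟩).trans (hz y ⟨hyM, hy⟩).symm
    · exact ⟨x, hx, hxM⟩
  choose s hs hsM using hex
  have huniq : ∀ (p q : P) (x : X), x ∈ p.1 → x ∈ q.1 → p = q := by
    intro p q x hp hq
    by_contra hcon
    have h1 : Disjoint p.1 q.1 := hP p.2 q.2 fun h => hcon (Subtype.ext h)
    exact disjoint_left.1 h1 hp hq
  refine ⟨range s, ?_, ?_, ?_⟩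
  · rintro _ ⟨p, rfl⟩
    exact ⟨p.1, p.2, hs p⟩
  · intro p hp
    refine ⟨s ⟨p, hp⟩, ⟨⟨_, rfl⟩, hs ⟨p, hp⟩⟩, ?_⟩
    rintro y ⟨⟨q, rfl⟩, hy⟩
    rw [huniq q ⟨p, hp⟩ _ (hs q) hy]
  · intro T hTs
    refine hT T ?_ ?_
    · intro x hx
      obtain ⟨p, rfl⟩ := hTs hx
      exact ⟨⟨p.1, p.2, hs p⟩, hsM p⟩
    · intro p hp
      have hsub : T ∩ p ⊆ {s ⟨p, hp⟩} := by
        rintro y ⟨hy, hyp⟩
        obtain ⟨q, rfl⟩ := hTs hy
        rw [mem_singleton_iff, huniq q ⟨p, hp⟩ _ (hs q) hyp]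
      refine (mk_le_mk_of_subset hsub).trans_lt ?_
      rw [mk_singleton]
      exact one_lt_aleph0.trans hκ0

/-- Let `κ` be an uncountable regular cardinal.

Every set `X` with at least `κ` elements, and every `κ`-complete algebra `𝔅` of fewer than
`2 ^ #X` subsets of `X`, have a selector algebra `𝔑 ⊇ 𝔅`.

If `κ ≤ 𝔠` and `ν < 2 ^ 𝔠` is a cardinal with `ν ^ l ≤ ν` for all `l < κ` (for example `κ = ℵ₁` and
`ν = 𝔠`), then for every nondegenerate interval `I` of the real line and every family `𝓕` of at most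
`ν` subsets of `I` there is a selector algebra on `I` that contains `𝓕` and all subintervals
of `I`. -/
theorem result (κ : Cardinal.{0}) (hκ : κ.IsRegular) (hκ0 : ℵ₀ < κ) :
    (∀ (X : Type), κ ≤ #X → ∀ 𝔅 : Set (Set X), (∀ A ∈ 𝔅, Aᶜ ∈ 𝔅) →
      (∀ (ι : Type) (A : ι → Set X), #ι < κ → (∀ i, A i ∈ 𝔅) → ⋃ i, A i ∈ 𝔅) →
      #𝔅 < 2 ^ #X → ∃ 𝔑 : Set (Set X), 𝔅 ⊆ 𝔑 ∧ SelectorAlgebra κ #𝔅 𝔑) ∧
    (κ ≤ 𝔠 → ∀ ν : Cardinal.{0}, 2 ≤ ν → (∀ l < κ, ν ^ l ≤ ν) → ν < 2 ^ 𝔠 →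
      ∀ I : Set ℝ, I.OrdConnected → I.Nontrivial → ∀ 𝓕 : Set (Set I), #𝓕 ≤ ν →
        ∃ 𝔑 : Set (Set I), 𝓕 ⊆ 𝔑 ∧ (∀ J : Set I, J.OrdConnected → J ∈ 𝔑) ∧
          SelectorAlgebra κ ν 𝔑) := by
  refine ⟨fun X hX 𝔅 h1 h2 hc => general κ hκ hκ0 X hX 𝔅 ⟨h1, h2⟩ #𝔅 hc le_rfl, ?_⟩
  intro hκc ν h2 hpow hν I hI hI' 𝓕 h𝓕
  have hIc : 𝔠 ≤ #I := SelectorSigmaAlgebra.continuum_le_mk hI hI'
  -- the family of the intervals
  have hJ : #{J : Set I | J.OrdConnected} ≤ 𝔠 := by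
    refine le_trans ?_ SelectorSigmaAlgebra.mk_borel_le
    have hm : ∀ J : Set I, J.OrdConnected → MeasurableSet (Subtype.val '' J : Set ℝ) := by
      intro J hJ
      refine Set.OrdConnected.measurableSet ⟨?_⟩
      rintro _ ⟨x, hx, rfl⟩ _ ⟨y, hy, rfl⟩ z hz
      exact ⟨⟨z, hI.out x.2 y.2 hz⟩, hJ.out hx hy hz, rfl⟩
    refine mk_le_of_injective (f := fun J : {J : Set I | J.OrdConnected} =>
      (⟨Subtype.val '' J.1, hm J.1 J.2⟩ : {D : Set ℝ | MeasurableSet D})) ?_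
    intro J J' h
    have h1 : Subtype.val '' J.1 = Subtype.val '' J'.1 := congrArg Subtype.val h
    exact Subtype.ext (Subtype.val_injective.image_injective h1)
  have hcν : 𝔠 ≤ ν := by
    rw [← two_power_aleph0]
    exact (power_le_power_right h2).trans (hpow ℵ₀ hκ0)
  have hU : #(𝓕 ∪ {J : Set I | J.OrdConnected} : Set (Set I)) ≤ ν :=
    (mk_union_le _ _).trans (add_le_of_le (aleph0_le_continuum.trans hcν) h𝓕 (hJ.trans hcν))
  have hgen := mk_gen κ (𝓕 ∪ {J : Set I | J.OrdConnected}) hκ0 h2 hpow hU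
  obtain ⟨𝔑, h3, h4⟩ := general κ hκ hκ0 I (hκc.trans hIc) _
    (gen_alg κ (𝓕 ∪ {J : Set I | J.OrdConnected})) ν
    (hν.trans_le (power_le_power_left two_ne_zero hIc)) hgen
  have h5 := (sub_gen κ (𝓕 ∪ {J : Set I | J.OrdConnected})).trans h3
  exact ⟨𝔑, fun A hA => h5 (Or.inl hA), fun J hJ => h5 (Or.inr hJ), h4⟩

end Pool.Agent.Results.MP_04ddd8_lc.SelectorAlgebras
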